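import Pool.Agent.Run7.h275.RB0

/-!
# Project RB (helper275), piece CEN: the centre of the blowing-up (helper957)
-/

set_option autoImplicit false
set_option linter.unusedVariables false

namespace Pool.Agent.Run7.h957.RB

open Pool.Agent.Run7.h275.RB Polynomial

section basic

variable {O F : Type} [CommRing O] [Field F] [Algebra O F]

/-- An element of maximal value. -/
lemma exists_max {M : Submodule O F} (hM : Md M) {V : ValuationSubring F} (hV : Cn O V) :
    ∃ w ∈ M, w ≠ 0 ∧ ∀ m ∈ M, V.valuation m ≤ V.valuation w := by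
  obtain ⟨⟨s, hs⟩, g, hg, hg0⟩ := hM
  have hne : s.Nonempty := by
    rw [Finset.nonempty_iff_ne_empty]
    rintro rfl
    rw [Finset.coe_empty, Submodule.span_empty] at hs
    rw [← hs, Submodule.mem_bot] at hg
    exact hg0 hg
  obtain ⟨w, hws, hw⟩ := s.exists_max_image (fun x => V.valuation x) hne
  have hall : ∀ m ∈ M, V.valuation m ≤ V.valuation w := by
    intro m hm
    rw [← hs] at hm
    induction hm using Submodule.span_induction with
    | mem x hx => exact hw x hx
    | zero => rw [map_zero]; exact zero_le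
    | add x y _ _ hx hy => exact (V.valuation.map_add x y).trans (max_le hx hy)
    | smul a x _ hx =>
      rw [Algebra.smul_def, map_mul]
      calc V.valuation (algebraMap O F a) * V.valuation x ≤ 1 * V.valuation x :=
            mul_le_mul_left ((V.valuation_le_one_iff _).2 (hV a)) _
        _ ≤ _ := by rwa [one_mul]
  refine ⟨w, hs ▸ Submodule.subset_span hws, ?_, hall⟩
  rintro rfl
  have h1 := hall g hg
  rw [map_zero, le_zero_iff, map_eq_zero] at h1
  exact hg0 h1

lemma val_pow {M : Submodule O F} {V : ValuationSubring F} (hV : Cn O V) {w : F}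
    (hw : ∀ m ∈ M, V.valuation m ≤ V.valuation w) : ∀ k, ∀ m ∈ M ^ k,
      V.valuation m ≤ V.valuation w ^ k := by
  intro k
  induction k with
  | zero =>
    intro m hm
    rw [pow_zero, Submodule.mem_one] at hm
    obtain ⟨o, rfl⟩ := hm
    rw [pow_zero]
    exact (V.valuation_le_one_iff _).2 (hV o)
  | succ k ih =>
    intro m hm
    rw [pow_succ] at hm
    refine Submodule.mul_induction_on hm ?_ ?_
    · intro a ha b hb
      rw [map_mul, pow_succ]
      exact mul_le_mul' (ih a ha) (hw b hb)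
    · intro a b ha hb
      exact (V.valuation.map_add a b).trans (max_le ha hb)

lemma vn_iff {M : Submodule O F} {V : ValuationSubring F} {w : F} (hwM : w ∈ M)
    (hw : ∀ m ∈ M, V.valuation m ≤ V.valuation w) (k : ℕ) (c : F) :
    Vn M k V c ↔ V.valuation c < V.valuation w ^ k :=
  ⟨fun ⟨m, hm, h⟩ => h.trans_le (pow_le_pow_left' (hw m hm) k), fun h => ⟨w, hwM, h⟩⟩

/-- The elements of degree `k` vanishing on `E`. -/
def J (M : Submodule O F) (hM : Md M) (E : Set (ValuationSubring F)) (hE : ∀ V ∈ E, Cn O V)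
    (k : ℕ) : Submodule O F where
  carrier := {c | c ∈ M ^ k ∧ ∀ T ∈ E, Vn M k T c}
  zero_mem' := by
    refine ⟨Submodule.zero_mem _, fun T hT => ?_⟩
    obtain ⟨w, hw, hw0, -⟩ := exists_max hM (hE T hT)
    refine ⟨w, hw, ?_⟩
    rw [map_zero]
    exact pow_pos (zero_lt_iff.2 ((_root_.map_ne_zero _).2 hw0)) _
  add_mem' := by
    rintro a b ⟨ha, ha'⟩ ⟨hb, hb'⟩
    refine ⟨Submodule.add_mem _ ha hb, fun T hT => ?_⟩
    obtain ⟨w, hw, hw0, hwm⟩ := exists_max hM (hE T hT)
    rw [vn_iff hw hwm]
    exact T.valuation.map_add_lt ((vn_iff hw hwm _ _).1 (ha' T hT)) ((vn_iff hw hwm _ _).1 (hb' T hT))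
  smul_mem' := by
    rintro o a ⟨ha, ha'⟩
    refine ⟨Submodule.smul_mem _ _ ha, fun T hT => ?_⟩
    obtain ⟨w, hw, h⟩ := ha' T hT
    refine ⟨w, hw, lt_of_le_of_lt ?_ h⟩
    rw [Algebra.smul_def, map_mul]
    calc T.valuation (algebraMap O F o) * T.valuation a ≤ 1 * T.valuation a :=
          mul_le_mul_left ((T.valuation_le_one_iff _).2 (hE T hT o)) _
      _ = _ := one_mul _

variable {M : Submodule O F} {hM : Md M} {E : Set (ValuationSubring F)} {hE : ∀ V ∈ E, Cn O V}

lemma mem_J {k : ℕ} {c : F} : c ∈ J M hM E hE k ↔ c ∈ M ^ k ∧ ∀ T ∈ E, Vn M k T c := Iff.rfl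

lemma J_mul {u v : ℕ} {a c : F} (ha : a ∈ M ^ u) (hc : c ∈ J M hM E hE v) :
    a * c ∈ J M hM E hE (u + v) := by
  refine ⟨?_, fun T hT => ?_⟩
  · rw [pow_add]
    exact Submodule.mul_mem_mul ha hc.1
  · obtain ⟨w, hw, hw0, hwm⟩ := exists_max hM (hE T hT)
    have h1 := (vn_iff hw hwm _ _).1 (hc.2 T hT)
    rw [vn_iff hw hwm, map_mul, pow_add]
    have h2 := val_pow (hE T hT) hwm u a ha
    have h3 : 0 < T.valuation w ^ u := pow_pos (zero_lt_iff.2 ((_root_.map_ne_zero _).2 hw0)) _
    calc T.valuation a * T.valuation c ≤ T.valuation w ^ u * T.valuation c := mul_le_mul_left h2 _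
      _ < T.valuation w ^ u * T.valuation w ^ v := mul_lt_mul_of_pos_left h1 h3

lemma J_mul_le (u v : ℕ) : M ^ u * J M hM E hE v ≤ J M hM E hE (u + v) := by
  rw [Submodule.mul_le]
  intro a ha c hc
  exact J_mul ha hc

end basic

section rees

variable {O F : Type} [CommRing O] [Field F] [Algebra O F] {M : Submodule O F} {s : Finset F}

/-- The homogeneous coordinate ring. -/
noncomputable def th (O : Type) {F : Type} [CommRing O] [Field F] [Algebra O F] (s : Finset F) :
    MvPolynomial s O →ₐ[O] F[X] :=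
  MvPolynomial.aeval (fun i : s => C (i : F) * X)

lemma th_coeff (hs : Submodule.span O (s : Set F) = M) (p : MvPolynomial s O) :
    ∀ j, (th O s p).coeff j ∈ M ^ j := by
  induction p using MvPolynomial.induction_on with
  | C a =>
    intro j
    rw [← MvPolynomial.algebraMap_eq, AlgHom.commutes, Polynomial.algebraMap_apply, coeff_C]
    split_ifs with h
    · rw [h, pow_zero]
      exact Submodule.mem_one.2 ⟨a, rfl⟩
    · exact Submodule.zero_mem _
  | add p q hp hq =>
    intro j
    rw [map_add, coeff_add]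
    exact Submodule.add_mem _ (hp j) (hq j)
  | mul_X p i hp =>
    intro j
    have h1 : th O s (MvPolynomial.X i) = C (i : F) * X := MvPolynomial.aeval_X _ _
    rw [map_mul, h1, ← mul_assoc]
    rcases j with _ | j
    · rw [mul_coeff_zero, coeff_X_zero, mul_zero]
      exact Submodule.zero_mem _
    · rw [coeff_mul_X, coeff_mul_C, pow_succ]
      exact Submodule.mul_mem_mul (hp j) (hs ▸ Submodule.subset_span i.2)

lemma th_surj (hs : Submodule.span O (s : Set F) = M) : ∀ j, ∀ c ∈ M ^ j,
    ∃ p : MvPolynomial s O, th O s p = C c * X ^ j := by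
  have h1 : ∀ b ∈ M, ∃ p : MvPolynomial s O, th O s p = C b * X := by
    intro b hb
    rw [← hs] at hb
    induction hb using Submodule.span_induction with
    | mem x hx => exact ⟨MvPolynomial.X ⟨x, hx⟩, MvPolynomial.aeval_X _ _⟩
    | zero => exact ⟨0, by rw [map_zero, map_zero, zero_mul]⟩
    | add x y _ _ hx hy =>
      obtain ⟨p, hp⟩ := hx
      obtain ⟨q, hq⟩ := hy
      exact ⟨p + q, by rw [map_add, hp, hq, map_add, add_mul]⟩
    | smul a x _ hx =>
      obtain ⟨p, hp⟩ := hx
      refine ⟨a • p, ?_⟩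
      rw [map_smul, hp, ← smul_mul_assoc, smul_C]
  intro j
  induction j with
  | zero =>
    intro c hc
    rw [pow_zero, Submodule.mem_one] at hc
    obtain ⟨o, rfl⟩ := hc
    refine ⟨MvPolynomial.C o, ?_⟩
    rw [← MvPolynomial.algebraMap_eq, AlgHom.commutes, Polynomial.algebraMap_apply, pow_zero, mul_one]
  | succ j ih =>
    intro c hc
    rw [pow_succ] at hc
    refine Submodule.mul_induction_on hc ?_ ?_
    · intro a ha b hb
      obtain ⟨p, hp⟩ := ih a ha
      obtain ⟨q, hq⟩ := h1 b hb
      refine ⟨p * q, ?_⟩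
      rw [map_mul, hp, hq, map_mul, pow_succ]
      ring
    · rintro a b ⟨p, hp⟩ ⟨q, hq⟩
      exact ⟨p + q, by rw [map_add, hp, hq, map_add, add_mul]⟩

variable {hM : Md M} {E : Set (ValuationSubring F)} {hE : ∀ V ∈ E, Cn O V}

lemma th_mul_coeff (hs : Submodule.span O (s : Set F) = M) (a x : MvPolynomial s O)
    (hx : ∀ j, (th O s x).coeff j ∈ J M hM E hE j) (j : ℕ) :
    (th O s (a * x)).coeff j ∈ J M hM E hE j := by
  rw [map_mul, coeff_mul]
  refine Submodule.sum_mem _ fun uv huv => ?_
  rw [← Finset.HasAntidiagonal.mem_antidiagonal.1 huv]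
  exact J_mul (th_coeff hs a _) (hx _)

/-- The ideal of the polynomials vanishing on `E`. -/
noncomputable def II (hs : Submodule.span O (s : Set F) = M) (hM : Md M)
    (E : Set (ValuationSubring F)) (hE : ∀ V ∈ E, Cn O V) : Ideal (MvPolynomial s O) where
  carrier := {p | ∀ j, (th O s p).coeff j ∈ J M hM E hE j}
  zero_mem' := fun j => by
    rw [map_zero, coeff_zero]
    exact Submodule.zero_mem _
  add_mem' := fun {a b} ha hb j => by
    rw [map_add, coeff_add]
    exact Submodule.add_mem _ (ha j) (hb j)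
  smul_mem' := fun a x hx j => by
    rw [smul_eq_mul]
    exact th_mul_coeff hs a x hx j

theorem exists_deg [IsNoetherianRing O] (M : Submodule O F) (hM : Md M)
    (E : Set (ValuationSubring F)) (hE : ∀ V ∈ E, Cn O V) (k₀ : ℕ) :
    ∃ k, k₀ ≤ k ∧ ∀ j, k ≤ j → J M hM E hE j ≤ M ^ (j - k) * J M hM E hE k := by
  obtain ⟨s, hs⟩ := hM.1
  obtain ⟨t, ht⟩ := IsNoetherian.noetherian (II hs hM E hE)
  set k := max k₀ (t.sup fun p => (th O s p).natDegree) with hk
  refine ⟨k, le_max_left _ _, ?_⟩
  -- the key statement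
  have key : ∀ p ∈ Submodule.span (MvPolynomial s O) (t : Set (MvPolynomial s O)),
      ∀ j, k ≤ j → (th O s p).coeff j ∈ M ^ (j - k) * J M hM E hE k := by
    intro p hp
    induction hp using Submodule.span_induction with
    | mem x hx =>
      intro j hj
      have h1 : (th O s x).natDegree ≤ k :=
        le_trans (Finset.le_sup (f := fun p => (th O s p).natDegree) hx) (le_max_right _ _)
      have hxI : x ∈ II hs hM E hE := ht ▸ Submodule.subset_span hx
      rcases hj.eq_or_lt with rfl | hlt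
      · rw [Nat.sub_self, pow_zero, one_mul]
        exact hxI _
      · rw [coeff_eq_zero_of_natDegree_lt (lt_of_le_of_lt h1 hlt)]
        exact Submodule.zero_mem _
    | zero =>
      intro j hj
      rw [map_zero, coeff_zero]
      exact Submodule.zero_mem _
    | add x y _ _ hx hy =>
      intro j hj
      rw [map_add, coeff_add]
      exact Submodule.add_mem _ (hx j hj) (hy j hj)
    | smul a x hxs hx =>
      intro j hj
      have hxI : x ∈ II hs hM E hE := ht ▸ hxs
      rw [smul_eq_mul, map_mul, coeff_mul]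
      refine Submodule.sum_mem _ fun uv huv => ?_
      have huv' := Finset.HasAntidiagonal.mem_antidiagonal.1 huv
      rcases le_total k uv.2 with hv | hv
      · have e : j - k = uv.1 + (uv.2 - k) := by omega
        rw [e, pow_add, mul_assoc]
        exact Submodule.mul_mem_mul (th_coeff hs a _) (hx _ hv)
      · have e : uv.1 = (j - k) + (k - uv.2) := by omega
        have h1 : (th O s a).coeff uv.1 * (th O s x).coeff uv.2 ∈
            M ^ uv.1 * J M hM E hE uv.2 := Submodule.mul_mem_mul (th_coeff hs a _) (hxI _)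
        have h2 : M ^ uv.1 * J M hM E hE uv.2 ≤ M ^ (j - k) * J M hM E hE k := by
          rw [e, pow_add, mul_assoc]
          refine mul_le_mul_right ?_ _
          have h3 := J_mul_le (M := M) (hM := hM) (E := E) (hE := hE) (k - uv.2) uv.2
          rwa [Nat.sub_add_cancel hv] at h3
        exact h2 h1
  intro j hj c hc
  obtain ⟨p, hp⟩ := th_surj hs j c hc.1
  have hpI : p ∈ II hs hM E hE := by
    intro i
    rw [hp, coeff_C_mul_X_pow]
    split_ifs with h
    · rw [h]; exact hc
    · exact Submodule.zero_mem _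
  have h1 := key p (ht.symm ▸ hpI) j hj
  rwa [hp, coeff_C_mul_X_pow, if_pos rfl] at h1

end rees

/-- **CEN** -/
theorem CEN : S_CEN := by
  intro O F _ _ _ _ M hM E hE ⟨k₀, c₀, hc₀, hc00, hc₀E⟩
  obtain ⟨k, hk, hkj⟩ := exists_deg M hM E hE k₀
  have hJfg : (J M hM E hE k).FG := by
    have h1 : (M ^ k).FG := hM.1.pow k
    have := isNoetherian_of_fg_of_noetherian (M ^ k) h1
    exact isNoetherian_submodule.1 this _ fun c hc => hc.1
  refine ⟨k, J M hM E hE k, ⟨hJfg, ?_⟩, fun c => Iff.rfl, ?_⟩
  · obtain ⟨g, hg, hg0⟩ := hM.2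
    refine ⟨g ^ (k - k₀) * c₀, ?_, mul_ne_zero (pow_ne_zero _ hg0) hc00⟩
    have h1 : c₀ ∈ J M hM E hE k₀ := ⟨hc₀, hc₀E⟩
    have h2 := J_mul (Submodule.pow_mem_pow M hg (k - k₀)) h1
    rwa [Nat.sub_add_cancel hk] at h2
  · intro j c hc hcE V hV
    obtain ⟨w, hw, hw0, hwm⟩ := exists_max hM hV
    refine ⟨0, w ^ k, ?_, ?_, ?_⟩
    · rw [add_zero]
      exact Submodule.pow_mem_pow M hw k
    · rw [add_zero, vn_iff hw hwm, map_pow]
      exact lt_irrefl _
    · have h1 : c ∈ J M hM E hE j := ⟨hc, hcE⟩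
      have h2 := J_mul (Submodule.pow_mem_pow M hw k) h1
      have h3 := hkj (k + j) (Nat.le_add_right _ _) h2
      rwa [Nat.add_sub_cancel_left] at h3

end Pool.Agent.Run7.h957.RB
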